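import Pool.Agent.Lib.MP_678664_lc_h67b.Main

/-!
Lower and upper bounds for the size of linear programs which decide the (gap) clique problem. The
definition is in `Pool/Agent/Lib/MP_678664_lc_h67b/Defs.lean`.
-/

set_option autoImplicit false

namespace Pool.Agent.Results.MP_678664_lc.CliquePrograms

open Pool.Agent.Lib.MP_678664_lc_h67b Filter

theorem result :
    ∀ k u : ℕ, 3 ≤ u → u ≤ k →
      (∃ c : ℝ, 0 < c ∧ ∀ (n r : ℕ) (ε : ℝ), 2 ≤ n → 0 < ε → ε ≤ 1 →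
        Nonempty (CliqueLP n k u ε r) →
          c * ε * (ε ^ 2 * n / Real.log n ^ 3) ^ u ≤ r + 1) ∧
      (∀ n : ℕ, Nonempty (CliqueLP n k u (1 - 2 / u) (n.choose u))) ∧
      ∀ ε F γ : ℝ, 0 < ε → ε ≤ 1 → γ < u → ∀ᶠ n : ℕ in atTop, ∀ r : ℕ,
        Nonempty (CliqueLP n k u ε r) → F * (n : ℝ) ^ γ < r :=
  main

end Pool.Agent.Results.MP_678664_lc.CliquePrograms
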