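import Pool.Agent.Lib.MP_678664_lc_FG.Main

/-!
# MP_678664_lc: circuits with few NOT gates, or few other non-monotone gates, for `k`-clique

For every `ε > 0` there are `c > 0` and `k₀` such that for all `k ≥ k₀` and all `n ≥ n₀(k)` the
following holds. If a randomized circuit of fan-in two AND and OR gates and at most `t` other
gates, computing arbitrary Boolean functions and having at most `m` input wires altogether, where
`(m + 1) * 2 ^ t ≤ n ^ (2 - ε)`, distinguishes with error at most `1 / 2 - ε` the graphs on `n`
vertices with a `k`-clique from those without a clique of `(1 / 2 + ε) * k` vertices, then it has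
at least `n ^ (c * k)` gates.

For NOT gates (`m = t`) the condition allows `t = (2 - 2 * ε) * log₂ n` of them, and with
`2 * log₂ n` NOT gates every circuit can be simulated at polynomial cost (Markov, Fischer); one
gate with `m = n * (n - 1) / 2` wires is enough for any graph property.
The definitions are in `Pool/Agent/Lib/MP_678664_lc_FG/Defs.lean`.
-/

set_option autoImplicit false

namespace Pool.Agent.Results.MP_678664_lc.FewNegations

open FewGates

theorem result : ∀ ε : ℝ, 0 < ε → ∃ c : ℝ, 0 < c ∧ ∃ k₀ : ℕ, ∀ k ≥ k₀, ∃ n₀ : ℕ, ∀ n ≥ n₀,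
    ∀ s t m k' : ℕ, ((m : ℝ) + 1) * 2 ^ t ≤ (n : ℝ) ^ (2 - ε) → (1 / 2 + ε) * k ≤ k' →
      HasRandomCircuit n s t m k k' ε → (n : ℝ) ^ (c * k) ≤ s :=
  main

end Pool.Agent.Results.MP_678664_lc.FewNegations
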