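import Pool.Agent.Lib.MP_678664_lc_ReadOnce.ProgramDefs
import Pool.Agent.Lib.MP_678664_lc_ReadOnce.ProgramTight
import Pool.Agent.Lib.MP_678664_lc_ReadOnce.ProgramUpper

/-!
# The width of linear read-once programs for the k-clique problem

The definitions are in `Pool.Agent.Lib.MP_678664_lc_ReadOnce.ProgramDefs`.
-/

namespace Pool.Agent.Results.MP_678664_lc.LinearWidth

open Pool.Agent.Lib.MP_678664_lc_ReadOnce Filter

universe u

/-- Lower bound: over every field, for `k ≥ 3`, every linear read-once program (with any order of
reading the pairs of vertices) that decides the `k`-clique problem for graphs with `n` vertices has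
width at least `(⌊(n + 1) / 4⌋ choose (k - 1)) / 2`.

Upper bound: over every infinite field, for a suitable order, width `3 * (n choose (k - 1))`
suffices. So for fixed `k ≥ 3` and an infinite field the least width over all orders is of order
exactly `n ^ (k - 1)`.

Hence no family of such programs has width `f(k) n^{g(k)}` with `g(k)/k → 0`: for every `f` and
every such `g`, for all large `k` and all `n` large in terms of `k`, over every field, the width
must be more than `f(k) n^{g(k)}`. -/
theorem result :
    (∀ (K : Type u) [Field K] (n k w : ℕ), 3 ≤ k → ∀ P : LinProg K (Sym2 (Fin n)) w,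
      P.DecidesClique k → ((n + 1) / 4).choose (k - 1) ≤ 2 * w) ∧
    (∀ (K : Type u) [Field K] [Infinite K] (n k : ℕ), 1 ≤ k →
      ∃ P : LinProg K (Sym2 (Fin n)) (3 * n.choose (k - 1)), P.DecidesClique k) ∧
    ∀ f g : ℕ → ℝ, Tendsto (fun k : ℕ => g k / k) atTop (nhds 0) →
      ∀ᶠ k : ℕ in atTop, ∀ᶠ n : ℕ in atTop, ∀ (K : Type u) [Field K] (w : ℕ)
        (P : LinProg K (Sym2 (Fin n)) w), P.DecidesClique k → f k * (n : ℝ) ^ g k < (w : ℝ) :=
  ⟨fun _ _ _ _ _ hk _ hP => tight_lower hP hk,
    fun _ _ _ n k hk => exists_cliqueProg n k hk,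
    fun f g hg => tight_asymptotic f g hg⟩

end Pool.Agent.Results.MP_678664_lc.LinearWidth
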