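import Pool.Agent.Lib.MP_678664_lc.Main

set_option autoImplicit false

namespace Pool.Agent.Results.MP_678664_lc.LocalVoteBound

open Pool.Agent.Lib.MP_678664_lc

/-- If `k`-clique on `n` vertices is decided by a real-weighted vote of `s` voters, each applying
`t` universal tests of locality `b ≤ k / 2`, then `n ^ k ≤ C * (t * (log n) ^ b) ^ (k / 2) * s`. -/
theorem result (k b : ℕ) (hb : 1 ≤ b) (hbk : 2 * b ≤ k) :
    ∃ C : ℝ, 0 < C ∧ ∃ n₀ : ℕ, ∀ n t s : ℕ, n₀ ≤ n → VoteDecidesClique n k b t s →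
      (n : ℝ) ^ k ≤ C * Real.sqrt (t * Real.log n ^ b) ^ k * s :=
  main k b hb hbk

end Pool.Agent.Results.MP_678664_lc.LocalVoteBound
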