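import Pool.Agent.Lib.SDF4.Main

/-!
# MP_678664_lc: semidefinite and linear programs for `k`-clique

Let `3 ≤ u ≤ k` and `ε > 0`. For some `c > 0`, every family of semidefinite programs with matrices
of size `r` which tells graphs on `n ≥ 2` vertices with a `k`-clique from graphs without a
`u`-clique, with gap `ε`, has `c * (n / log n) ^ u ≤ r + 1`. Linear programs (semidefinite programs
with diagonal matrices) with `n.choose u` inequalities suffice for every `n` and the gap
`1 - 2 / u`. So the exponent is exactly `u`, for all `k ≥ u`.

The feasible region (a linear matrix inequality of size `r` and linear equations in any number of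
variables) and the feasible points of the `k`-sets are the same for all graphs; the graph enters
in the affine objective function only.  The definitions `CliqueSDP`, `CliqueSDP.IsLinear` are in
`Pool/Agent/Lib/SDF/Defs.lean`.
-/

set_option autoImplicit false

namespace Pool.Agent.Results.MP_678664_lc.SemidefinitePrograms

open Pool.Agent.Lib.SDF (CliqueSDP)

theorem result :
    ∀ k u : ℕ, 3 ≤ u → u ≤ k →
      (∀ ε : ℝ, 0 < ε → ∃ c : ℝ, 0 < c ∧ ∀ n r : ℕ, 2 ≤ n →
        Nonempty (CliqueSDP n k u ε r) → c * (n / Real.log n) ^ u ≤ r + 1) ∧
      ∀ n : ℕ, ∃ P : CliqueSDP n k u (1 - 2 / u) (n.choose u), P.IsLinear :=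
  Pool.Agent.Lib.SDF4.main

end Pool.Agent.Results.MP_678664_lc.SemidefinitePrograms
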