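import Pool.Agent.Lib.SR.Main3

/-!
MP_678664_lc. Sign rank of the k-clique problem, for every balanced partition of the input.
-/

namespace Pool.Agent.Results.MP_678664_lc.SignRank

/-- For all `k ≥ 3` and `δ > 0` there is `c > 0` such that for all `n ≥ k` and every partition of
the pairs of vertices into the edges of `A` and of the complement of `A`, both of size at least
`δ n²`: if real functions `p t` of the part of `G` in `A` and `q t` of the rest of `G` (`t < r`)
are such that every graph `G` on `n` vertices has a `k`-clique if and only if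
`∑ t, p t * q t > 0`, then `r ≥ c n^((k-2)/2)`. -/
theorem result (k : ℕ) (hk : 3 ≤ k) (δ : ℝ) (hδ : 0 < δ) :
    ∃ c : ℝ, 0 < c ∧ ∀ (n : ℕ) (A : SimpleGraph (Fin n)), k ≤ n →
      δ * (n : ℝ) ^ 2 ≤ (A.edgeSet.ncard : ℝ) → δ * (n : ℝ) ^ 2 ≤ (Aᶜ.edgeSet.ncard : ℝ) →
      ∀ (r : ℕ) (p q : Fin r → SimpleGraph (Fin n) → ℝ),
        (∀ G : SimpleGraph (Fin n),
          ¬ G.CliqueFree k ↔ 0 < ∑ t, p t (G ⊓ A) * q t (G ⊓ Aᶜ)) →
        c * (n : ℝ) ^ (((k : ℝ) - 2) / 2) ≤ r :=
  Pool.SR.main3 k hk δ hδ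

end Pool.Agent.Results.MP_678664_lc.SignRank
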