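import Mathlib
import Pool.Agent.Lib.MP_678664_lc_h46.Final

/-!
# MP_678664_lc: symmetric and nearly symmetric circuits for the clique problem

Over circuits with arbitrary symmetric gates, the least product of size and asymmetry needed to
tell graphs with a `k`-clique from graphs without a `u`-clique is exactly `C(n, u)`, even with
randomization; exhaustive search attains it.
-/

namespace Pool.Agent.Results.MP_678664_lc.SymmetricCircuits

open Pool.Agent.SymCirc

theorem result :
    (∀ k u : ℕ, 3 ≤ u → u ≤ k → ∃ n₀ : ℕ, ∀ n ≥ n₀,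
      IsLeast {b | HasRandomCircuit n k u b} (n.choose u)) ∧
    (∀ u : ℕ → ℕ, Filter.Tendsto u Filter.atTop Filter.atTop →
      ∀ f g : ℕ → ℝ, Filter.Tendsto (fun k => g k / u k) Filter.atTop (nhds 0) →
        ∃ k₀ : ℕ, ∀ k ≥ k₀, ∃ n₀ : ℕ, ∀ n ≥ n₀, ∀ b : ℕ, HasRandomCircuit n k (u k) b →
          f k * (n : ℝ) ^ (g k) < b) :=
  ⟨random_least, no_family⟩

end Pool.Agent.Results.MP_678664_lc.SymmetricCircuits
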