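import Pool.Agent.Lib.MP_678664_lc_h37.Final

/-!
# MP_678664_lc: certifying that a graph has no k-clique, the trade-off between length and space

For every `k ≥ 2` the least number of steps of Extended Frege refutations in space `s` of the
clique formula of a graph with `k` blocks of `n = 2 ^ N` vertices and without `k`-clique is, for
the worst graph, `(n / s) ^ k` up to a factor `(C * (N + 1)) ^ (3 * k)`.
-/

namespace Pool.Agent.Lib.MP_678664_lc_retired.TimeSpaceTradeoff

open Pool.Agent.MP_678664_lc.TimeSpace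

theorem result (k : ℕ) (hk : 2 ≤ k) : ∃ C : ℕ, ∀ N : ℕ,
    (∃ G : SimpleGraph (Fin k × (Fin N → Bool)),
      (∀ i u v, ¬ G.Adj (i, u) (i, v)) ∧ G.CliqueFree k ∧
      ∀ (s L : ℕ) (M : ℕ → List Fml), IsRefutation G s L M →
        (2 ^ N) ^ k ≤ L * (C * (N + 1) ^ 3 * s) ^ k) ∧
    ∀ G : SimpleGraph (Fin k × (Fin N → Bool)), G.CliqueFree k →
      ∀ s : ℕ, C * (N + 1) ≤ s → s ≤ 2 ^ N →
        ∃ (L : ℕ) (M : ℕ → List Fml), IsRefutation G s L M ∧ L * s ^ k ≤ (C * 2 ^ N) ^ k :=
  tradeoff k hk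

end Pool.Agent.Lib.MP_678664_lc_retired.TimeSpaceTradeoff
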